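import Pool.Agent.Lib.AMU.Uncond

/-!
# The AMU conjecture for surface groups

For every orientable surface of finite type with negative Euler characteristic and every
non-trivial element `γ` of its fundamental group which is not simple and not a proper power:

* (unconditional) for all large odd levels there is a root of unity (and, for punctured surfaces,
  a colouring of the punctures) at which the state sum of the closed braid of `γ` in
  (surface) × (circle) is, in absolute value, strictly larger than the state sum of the closed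
  braid of the trivial element; no representation occurs here;
* (representations) `γ` has infinite order under the `SO(3)` Witten-Reshetikhin-Turaev
  representations of all large odd levels.

The surfaces:

* Closed surface of genus `g ≥ 2`: the `4g`-gon with opposite sides glued.
* Punctured surfaces: any polygon with at least four sides, glued by an involution `opp` without
  fixed points; the corners are the punctures. The representation is the sum over all colourings of
  the punctures; hence the element has infinite order for at least one colouring.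

`IsWRT` characterizes the representation by its character, which is given by the trace axiom of
the TQFT: the invariant of the closed braid of the element in (surface) × (circle), computed by the
state sum `Z`.
-/

set_option autoImplicit false

namespace Pool.Agent.Results.MP_a8b399_gt.SurfaceGroupsAMU

open Pool.Agent.AMU

theorem result :
    (∀ g : ℕ, 2 ≤ g → ∀ c : ℕ, Even c → 0 < c → ∀ γ : SurfaceGroup g, γ ≠ 1 →
      ¬ IsSimple (closedOpp g) (fun i => (PresentedGroup.of i : SurfaceGroup g)) γ →
      ¬ IsProperPower γ →
      (∀ w : List (ZMod (4 * g)),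
        (w.map fun i => (PresentedGroup.of i : SurfaceGroup g)).prod = γ →
        ∀ ord : ℕ → ℤ, Function.Injective ord →
        ∃ p₀ : ℕ, ∀ p, p₀ ≤ p → Odd p → ∃ A : ℂ, IsPrimitiveRoot A (2 * p) ∧
          ‖Z (closedOpp g) [0, closedOpp g 0] (fun k => (k : ℤ)) p A (fun _ => 1) c‖ <
            ‖Z (closedOpp g) w ord p A (fun _ => 1) c‖) ∧
      (∃ p₀ : ℕ, ∀ p, p₀ ≤ p → Odd p → ∀ A : ℂ, IsPrimitiveRoot A (2 * p) →
        ∀ (d : ℕ) (ρ : SurfaceGroup g →* PGL d),
          IsWRT (closedOpp g) (fun i => PresentedGroup.of i) c p A (fun _ => 1) ρ →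
          ¬ IsOfFinOrder (ρ γ))) ∧
    (∀ N : ℕ, 4 ≤ N → ∀ opp : ZMod N → ZMod N, (∀ i, opp (opp i) = i) → (∀ i, opp i ≠ i) →
      ∀ c : ℕ, Even c → 0 < c → ∀ γ : PuncturedGroup opp, γ ≠ 1 →
      ¬ IsSimple opp (fun i => (PresentedGroup.of i : PuncturedGroup opp)) γ →
      ¬ IsProperPower γ →
      (∀ w : List (ZMod N),
        (w.map fun i => (PresentedGroup.of i : PuncturedGroup opp)).prod = γ →
        ∀ ord : ℕ → ℤ, Function.Injective ord →
        ∃ p₀ : ℕ, ∀ p, p₀ ≤ p → Odd p → ∃ A : ℂ, IsPrimitiveRoot A (2 * p) ∧
          ∃ lam, IsColouring opp p lam ∧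
            ‖Z opp [0, opp 0] (fun k => (k : ℤ)) p A lam c‖ < ‖Z opp w ord p A lam c‖) ∧
      (∃ p₀ : ℕ, ∀ p, p₀ ≤ p → Odd p → ∀ A : ℂ, IsPrimitiveRoot A (2 * p) →
        ∃ lam, IsColouring opp p lam ∧ ∀ (d : ℕ) (ρ : PuncturedGroup opp →* PGL d),
          IsWRT opp (fun i => PresentedGroup.of i) c p A lam ρ → ¬ IsOfFinOrder (ρ γ))) :=
  ⟨fun _ hg _ hc hc0 _ hγ hs hp =>
      ⟨fun _ hwγ _ ho => Asm.closed_uncond hg hc hc0 hγ hs hp
          (fun h => hγ (by rw [← hwγ, h]; rfl)) hwγ ho,
        Asm.closed_final hg hc hc0 hγ hs hp⟩,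
    fun _ hN opp hinv hne _ hc hc0 _ hγ hs hp =>
      ⟨fun _ hwγ _ ho => Asm.punctured_uncond hN opp hinv hne hc hc0 hγ hs hp
          (fun h => hγ (by rw [← hwγ, h]; rfl)) hwγ ho,
        Asm.punctured_final hN opp hinv hne hc hc0 hγ hs hp⟩⟩

end Pool.Agent.Results.MP_a8b399_gt.SurfaceGroupsAMU
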